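import Pool.Agent.Q191.HMDens

/-!
# Ternary hereditary subspaces of Hilbert modules are linking hereditary

If `F` is a closed ternary subspace of the Hilbert module `E` with `F⟨E, F⟩ ⊆ F`, then the reduced
linking algebra of `F` is a hereditary subalgebra of the reduced linking algebra of `E`.
-/

set_option autoImplicit false

open Pool.Agent.Q191.HM HilbMod Filter Topology

namespace Pool.Agent.Results.MP_7e9539_an.TernaryHereditary

/-- `F` is ternary hereditary in `E`: `x⟨y, z⟩ ∈ F` for all `x, z ∈ F` and `y ∈ E`. -/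
def IsTernaryHereditary (B : Type*) {E : Type*} [NonUnitalCStarAlgebra B] [NormedAddCommGroup E]
    [NormedSpace ℂ E] [HilbMod B E] (F : Submodule ℂ E) : Prop :=
  ∀ x ∈ F, ∀ y : E, ∀ z ∈ F, act x (inn y z : B) ∈ F

/-- The value of the matrix `T` at the element `(c, z)` of `B ⊕ E`. -/
def val (B : Type*) {E : Type*} [NonUnitalCStarAlgebra B] [NormedAddCommGroup E]
    [NormedSpace ℂ E] [HilbMod B E] (T : Mat B E) (v : B × E) : B × E :=
  (T.fst B v.1 v.2, T.snd B v.1 v.2)

/-- `R` is the product `S T U` in the linking algebra, the composition of the operators on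
`B_E ⊕ E`. -/
def IsProd (B : Type*) {E : Type*} [NonUnitalCStarAlgebra B] [NormedAddCommGroup E]
    [NormedSpace ℂ E] [HilbMod B E] (R S T U : Mat B E) : Prop :=
  ∀ c ∈ innSpan B (⊤ : Submodule ℂ E), ∀ z : E,
    val B R (c, z) = val B S (val B T (val B U (c, z)))

/-- `F` is linking hereditary in `E`: `S T U` is in the linking algebra of `F` for all
`S, U` in the linking algebra of `F` and `T` in the linking algebra of `E`. -/
def IsLinkingHereditary (B : Type*) {E : Type*} [NonUnitalCStarAlgebra B] [NormedAddCommGroup E]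
    [NormedSpace ℂ E] [HilbMod B E] (F : Submodule ℂ E) : Prop :=
  ∀ S ∈ link B F, ∀ T ∈ link B (⊤ : Submodule ℂ E), ∀ U ∈ link B F, ∃ R ∈ link B F,
    IsProd B R S T U

section Proof

variable {B E : Type*} [NonUnitalCStarAlgebra B] [NormedAddCommGroup E] [NormedSpace ℂ E]
  [HilbMod B E] {F : Submodule ℂ E}

lemma clos {V W : Type*} [NormedAddCommGroup V] [NormedSpace ℂ V] [NormedAddCommGroup W]
    [NormedSpace ℂ W] {S : Set V} {G : Submodule ℂ W} (hG : IsClosed (G : Set W))
    (f : V →L[ℂ] W) (h : ∀ v ∈ S, f v ∈ G) :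
    ∀ v ∈ (Submodule.span ℂ S).topologicalClosure, f v ∈ G := by
  have h1 : (Submodule.span ℂ S).topologicalClosure ≤ G.comap (f : V →ₗ[ℂ] W) :=
    Submodule.topologicalClosure_minimal _ (Submodule.span_le.2 h) (hG.preimage f.continuous)
  exact fun v hv => h1 hv

lemma innSpan_closed : IsClosed (innSpan B F : Set B) := Submodule.isClosed_topologicalClosure _

lemma compSpan_closed : IsClosed (compSpan B F : Set (Op E)) :=
  Submodule.isClosed_topologicalClosure _

/-- closure induction in `innSpan` -/
lemma innSpan_ind {W : Type*} [NormedAddCommGroup W] [NormedSpace ℂ W] {G : Submodule ℂ W}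
    (hG : IsClosed (G : Set W)) (f : B →L[ℂ] W) (h : ∀ g ∈ F, ∀ h ∈ F, f (inn g h) ∈ G) :
    ∀ b ∈ innSpan B F, f b ∈ G := by
  refine clos hG f ?_
  rintro v ⟨g, hg, g', hg', rfl⟩
  exact h g hg g' hg'

/-- closure induction in `compSpan` -/
lemma compSpan_ind {W : Type*} [NormedAddCommGroup W] [NormedSpace ℂ W] {G : Submodule ℂ W}
    (hG : IsClosed (G : Set W)) (f : Op E →L[ℂ] W) (h : ∀ g ∈ F, ∀ h ∈ F, f (rk B g h) ∈ G) :
    ∀ b ∈ compSpan B F, f b ∈ G := by
  refine clos hG f ?_
  rintro v ⟨g, hg, g', hg', hv⟩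
  rw [eq_rk hv]
  exact h g hg g' hg'

lemma star_mem_innSpan {b : B} (hb : b ∈ innSpan B F) : star b ∈ innSpan B F := by
  let D : Submodule ℂ B :=
    { carrier := {b | star b ∈ innSpan B F}
      add_mem' := fun {a b} ha hb => by
        show star (a + b) ∈ innSpan B F
        rw [star_add]; exact Submodule.add_mem _ ha hb
      zero_mem' := by
        show star (0 : B) ∈ innSpan B F
        rw [star_zero]; exact Submodule.zero_mem _
      smul_mem' := fun c b hb => by
        show star (c • b) ∈ innSpan B F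
        rw [star_smul]; exact Submodule.smul_mem _ _ hb }
  have hD : IsClosed (D : Set B) := innSpan_closed.preimage continuous_star
  have : innSpan B F ≤ D := Submodule.topologicalClosure_minimal _ (Submodule.span_le.2 (by
    rintro v ⟨g, hg, g', hg', rfl⟩
    show star (inn g g' : B) ∈ innSpan B F
    rw [star_inn]
    exact inn_mem hg' hg)) hD
  exact this hb

/-- `l` is the adjoint of `k` -/
def IsAdj (B : Type*) {E : Type*} [NonUnitalCStarAlgebra B] [NormedAddCommGroup E]
    [NormedSpace ℂ E] [HilbMod B E] (l k : Op E) : Prop :=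
  ∀ u v : E, (inn (l u) v : B) = inn u (k v)

lemma norm_adj_le {l k : Op E} (h : IsAdj B l k) : ‖l‖ ≤ ‖k‖ := by
  refine ContinuousLinearMap.opNorm_le_bound _ (norm_nonneg _) fun u => ?_
  have h1 : ‖l u‖ ^ 2 ≤ (‖k‖ * ‖u‖) * ‖l u‖ := by
    rw [norm_sq (B := B), h]
    calc ‖(inn u (k (l u)) : B)‖ ≤ ‖u‖ * ‖k (l u)‖ := norm_inn_le _ _
      _ ≤ ‖u‖ * (‖k‖ * ‖l u‖) := by gcongr; exact k.le_opNorm _
      _ = _ := by ring
  by_cases h0 : ‖l u‖ = 0
  · rw [h0]; positivity
  · have h2 : 0 < ‖l u‖ := lt_of_le_of_ne (norm_nonneg _) (Ne.symm h0)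
    rw [sq] at h1
    exact le_of_mul_le_mul_right h1 h2

lemma isAdj_rk (x y : E) : IsAdj B (rk B y x) (rk B x y) := by
  intro u v
  rw [rk_apply, rk_apply, act_inn, inn_act, star_inn]

variable [CompleteSpace E]

lemma exists_adj {k : Op E} (hk : k ∈ compSpan B F) : ∃ l ∈ compSpan B F, IsAdj B l k := by
  let D : Submodule ℂ (Op E) :=
    { carrier := {k | ∃ l ∈ compSpan B F, IsAdj B l k}
      add_mem' := by
        rintro a b ⟨l, hl, h1⟩ ⟨m, hm, h2⟩
        refine ⟨l + m, Submodule.add_mem _ hl hm, fun u v => ?_⟩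
        rw [ContinuousLinearMap.add_apply, ContinuousLinearMap.add_apply, inn_add_left, inn_add,
          h1, h2]
      zero_mem' := ⟨0, Submodule.zero_mem _, fun u v => by
        rw [ContinuousLinearMap.zero_apply, ContinuousLinearMap.zero_apply, zero_inn, inn_zero]⟩
      smul_mem' := by
        rintro c b ⟨l, hl, h1⟩
        refine ⟨star c • l, Submodule.smul_mem _ _ hl, fun u v => ?_⟩
        rw [ContinuousLinearMap.smul_apply, ContinuousLinearMap.smul_apply, inn_smul_left,
          inn_smul, star_star, h1] }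
  have hD : IsClosed (D : Set (Op E)) := by
    rw [← isSeqClosed_iff_isClosed]
    intro k0 k hk0 hk
    choose l hl hadj using fun n => hk0 n
    have hcauchy : CauchySeq l := by
      have hc := hk.cauchySeq
      rw [Metric.cauchySeq_iff] at hc ⊢
      intro ε hε
      obtain ⟨N, hN⟩ := hc ε hε
      refine ⟨N, fun m hm n hn => ?_⟩
      refine lt_of_le_of_lt ?_ (hN m hm n hn)
      rw [dist_eq_norm, dist_eq_norm]
      refine norm_adj_le (B := B) fun u v => ?_
      rw [ContinuousLinearMap.sub_apply, ContinuousLinearMap.sub_apply, inn_sub_left, inn_sub,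
        hadj, hadj]
    obtain ⟨l', hl'⟩ := cauchySeq_tendsto_of_complete hcauchy
    refine ⟨l', compSpan_closed.mem_of_tendsto hl' (Filter.Eventually.of_forall hl), fun u v => ?_⟩
    have h1 : Tendsto (fun n => (inn (l n u) v : B)) atTop (𝓝 (inn (l' u) v)) := by
      have h3 : Tendsto (fun n => l n u) atTop (𝓝 (l' u)) :=
        ((ContinuousLinearMap.apply ℂ E u).continuous.tendsto l').comp hl'
      have h4 : Tendsto (fun n => (star (innL B v (l n u)) : B)) atTop
          (𝓝 (star (innL B v (l' u)))) :=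
        (((innL B v).continuous.tendsto _).comp h3).star
      simpa only [innL_apply, star_inn] using h4
    have h2 : Tendsto (fun n => (inn (l n u) v : B)) atTop (𝓝 (inn u (k v))) := by
      have h3 : Tendsto (fun n => k0 n v) atTop (𝓝 (k v)) :=
        ((ContinuousLinearMap.apply ℂ E v).continuous.tendsto k).comp hk
      have h4 := ((innL B u).continuous.tendsto (k v)).comp h3
      refine h4.congr fun n => ?_
      simp only [Function.comp_apply, innL_apply]
      exact (hadj n u v).symm
    exact tendsto_nhds_unique h1 h2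
  have : compSpan B F ≤ D := Submodule.topologicalClosure_minimal _ (Submodule.span_le.2 (by
    rintro v ⟨g, hg, g', hg', hv⟩
    rw [eq_rk hv]
    exact ⟨rk B g' g, rk_mem hg' hg, isAdj_rk g g'⟩)) hD
  exact this hk

omit [CompleteSpace E]

/-- `⟨u, v⟩⟨g, h⟩ = ⟨g⟨v, u⟩, h⟩` -/
lemma inn_mul_inn (u v g h : E) : (inn u v * inn g h : B) = inn (act g (inn v u : B)) h := by
  rw [act_inn, star_inn]

/-- `⟨u, v⟩⟨g, h⟩ = ⟨u, v⟨g, h⟩⟩` -/
lemma inn_mul_inn' (u v g h : E) : (inn u v * inn g h : B) = inn u (act v (inn g h : B)) := by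
  rw [inn_act]

/-- right multiplication by `c` -/
noncomputable def mulR (c : B) : B →L[ℂ] B := (ContinuousLinearMap.mul ℂ B).flip c

/-- left multiplication by `c` -/
noncomputable def mulL (c : B) : B →L[ℂ] B := (ContinuousLinearMap.mul ℂ B) c

lemma mulR_apply (c b : B) : mulR c b = b * c := rfl
lemma mulL_apply (c b : B) : mulL c b = c * b := rfl

section Facts

variable (hF : IsTernary B F) (hH : IsTernaryHereditary B F)

include hF hH

/-- `C⟨E, F⟩ ⊆ C` -/
lemma CE {b : B} (hb : b ∈ innSpan B F) (u : E) {x : E} (hx : x ∈ F) :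
    b * inn u x ∈ innSpan B F := by
  have := innSpan_ind (F := F) (G := innSpan B F) innSpan_closed (mulR (inn u x)) (fun g hg h hh => by
    rw [mulR_apply, inn_mul_inn']
    exact inn_mem hg (hH h hh u x hx)) b hb
  exact this

/-- `⟨F, E⟩C ⊆ C` -/
lemma EC {b : B} (hb : b ∈ innSpan B F) (u : E) {x : E} (hx : x ∈ F) :
    inn x u * b ∈ innSpan B F := by
  have := star_mem_innSpan (CE hF hH (star_mem_innSpan hb) u hx)
  rwa [star_mul, star_inn, star_star] at this

/-- `F B_E C ⊆ F` -/
lemma X1 {x : E} (hx : x ∈ F) {c : B} (hc : c ∈ innSpan B (⊤ : Submodule ℂ E)) {b : B}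
    (hb : b ∈ innSpan B F) : act x (c * b) ∈ F := by
  refine innSpan_ind (F := (⊤ : Submodule ℂ E)) (G := F) hF.closed ((actB B x).comp (mulR b)) ?_ c hc
  intro u _ v _
  rw [ContinuousLinearMap.comp_apply, mulR_apply, actB_apply]
  refine innSpan_ind (F := F) (G := F) hF.closed ((actB B x).comp (mulL (inn u v))) ?_ b hb
  intro g hg h hh
  rw [ContinuousLinearMap.comp_apply, mulL_apply, actB_apply, inn_mul_inn]
  exact hH x hx _ h hh

/-- `C B_E C ⊆ C` -/
lemma B1 {a : B} (ha : a ∈ innSpan B F) {c : B} (hc : c ∈ innSpan B (⊤ : Submodule ℂ E)) {b : B}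
    (hb : b ∈ innSpan B F) : a * (c * b) ∈ innSpan B F := by
  refine innSpan_ind (F := F) (G := innSpan B F) innSpan_closed (mulR (c * b)) ?_ a ha
  intro g hg h hh
  rw [mulR_apply, ← inn_act]
  exact inn_mem hg (X1 hF hH hh hc hb)

/-- `F⟨F, E⟩C ⊆ F` -/
lemma X3' {g h : E} (hg : g ∈ F) (u : E) {b : B} (hb : b ∈ innSpan B F) :
    act g (inn h u * b : B) ∈ F := by
  refine innSpan_ind (F := F) (G := F) hF.closed ((actB B g).comp (mulL (inn h u))) ?_ b hb
  intro p hp q hq
  rw [ContinuousLinearMap.comp_apply, mulL_apply, actB_apply, inn_mul_inn]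
  exact hH g hg _ q hq

/-- `K(F) E C ⊆ F` -/
lemma X3 {k : Op E} (hk : k ∈ compSpan B F) (u : E) {b : B} (hb : b ∈ innSpan B F) :
    k (act u b) ∈ F := by
  refine compSpan_ind (B := B) (F := F) (G := F) hF.closed (ContinuousLinearMap.apply ℂ E (act u b)) ?_ k hk
  intro g hg h hh
  rw [ContinuousLinearMap.apply_apply, rk_apply, inn_act]
  exact X3' hF hH hg u hb

/-- `K(F) K(E) F ⊆ F` -/
lemma X4 {k : Op E} (hk : k ∈ compSpan B F) {l : Op E} (hl : l ∈ compSpan B (⊤ : Submodule ℂ E))
    {x : E} (hx : x ∈ F) : k (l x) ∈ F := by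
  refine compSpan_ind (B := B) (F := F) (G := F) hF.closed (ContinuousLinearMap.apply ℂ E (l x)) ?_ k hk
  intro g hg h hh
  rw [ContinuousLinearMap.apply_apply, rk_apply]
  refine compSpan_ind (B := B) (F := (⊤ : Submodule ℂ E)) (G := F) hF.closed
    (((actB B g).comp (innL B h)).comp (ContinuousLinearMap.apply ℂ E x)) ?_ l hl
  intro u _ v _
  rw [ContinuousLinearMap.comp_apply, ContinuousLinearMap.apply_apply,
    ContinuousLinearMap.comp_apply, innL_apply, actB_apply, rk_apply, ← inn_mul_inn', inn_mul_inn]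
  exact hH g hg _ x hx

/-- `⟨F, K(E) F⟩ ⊆ C` -/
lemma B4 {y : E} (hy : y ∈ F) {l : Op E} (hl : l ∈ compSpan B (⊤ : Submodule ℂ E))
    {x : E} (hx : x ∈ F) : (inn y (l x) : B) ∈ innSpan B F := by
  refine compSpan_ind (B := B) (F := (⊤ : Submodule ℂ E)) (G := innSpan B F) innSpan_closed
    ((innL B y).comp (ContinuousLinearMap.apply ℂ E x)) ?_ l hl
  intro u _ v _
  rw [ContinuousLinearMap.comp_apply, ContinuousLinearMap.apply_apply, innL_apply, rk_apply]
  have key : ∀ w ∈ (Submodule.span ℂ (triples B F)).topologicalClosure,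
      innL B (act u (inn v x : B)) w ∈ innSpan B F := by
    refine clos innSpan_closed _ ?_
    rintro w ⟨y', hy', g, hg, h, hh, rfl⟩
    have h1 : innL B (act u (inn v x : B)) (act y' (inn g h : B)) =
        star (inn h (act g (inn (act v (inn u y' : B)) x : B)) : B) := by
      rw [innL_apply, inn_act, act_inn, ← inn_mul_inn', ← inn_mul_inn, star_mul, star_mul,
        star_inn, star_inn, star_inn]
    rw [h1]
    exact star_mem_innSpan (inn_mem hh (hH g hg _ x hx))
  have := star_mem_innSpan (key y (mem_closure_triples hF hy))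
  rwa [innL_apply, star_inn] at this

omit hF hH in
lemma rk_add_left (x y z : E) : rk B (x + y) z = rk B x z + rk B y z := by
  ext w
  rw [ContinuousLinearMap.add_apply, rk_apply, rk_apply, rk_apply, add_act]

omit hF hH in
lemma rk_add_right (x y z : E) : rk B x (y + z) = rk B x y + rk B x z := by
  ext w
  rw [ContinuousLinearMap.add_apply, rk_apply, rk_apply, rk_apply, inn_add_left, act_add]

omit hF hH in
lemma rk_smul_left (c : ℂ) (x y : E) : rk B (c • x) y = c • rk B x y := by
  ext w
  rw [ContinuousLinearMap.smul_apply, rk_apply, rk_apply, smul_act]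

omit hF hH in
lemma rk_smul_right (c : ℂ) (x y : E) : rk B x (c • y) = star c • rk B x y := by
  ext w
  rw [ContinuousLinearMap.smul_apply, rk_apply, rk_apply, inn_smul_left, act_smul]

omit hF hH in
lemma norm_rk_le (x y : E) : ‖rk B x y‖ ≤ ‖x‖ * ‖y‖ := by
  refine ContinuousLinearMap.opNorm_le_bound _ (by positivity) fun z => ?_
  rw [rk_apply]
  calc ‖act x (inn y z : B)‖ ≤ ‖x‖ * ‖(inn y z : B)‖ := norm_act_le _ _
    _ ≤ ‖x‖ * (‖y‖ * ‖z‖) := by gcongr; exact norm_inn_le _ _
    _ = _ := by ring

omit hF hH in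
/-- `x ↦ x y^*` -/
lemma exists_rkL (y : E) : ∃ f : E →L[ℂ] Op E, ∀ x, f x = rk B x y :=
  ⟨LinearMap.mkContinuous ⟨⟨fun x => rk B x y, fun x z => rk_add_left x z y⟩,
    fun c x => rk_smul_left c x y⟩ ‖y‖ (fun x => by rw [mul_comm]; exact norm_rk_le x y),
    fun _ => rfl⟩

omit hF hH in
lemma continuous_rk_right (x : E) : Continuous fun y => rk B x y := by
  have h : LipschitzWith ⟨‖x‖, norm_nonneg _⟩ fun y => rk B x y := by
    refine LipschitzWith.of_dist_le_mul fun y z => ?_
    rw [dist_eq_norm, dist_eq_norm]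
    have h1 : rk B x y - rk B x z = rk B x (y - z) := by
      ext w
      rw [ContinuousLinearMap.sub_apply, rk_apply, rk_apply, rk_apply, inn_sub_left,
        sub_eq_add_neg (inn y w : B), act_add, ← neg_one_smul ℂ (inn z w : B), act_smul,
        neg_one_smul, sub_eq_add_neg]
    rw [h1]
    exact norm_rk_le x (y - z)
  exact h.continuous

/-- `F B_E F^* ⊆ K(F)` -/
lemma K1 {x : E} (hx : x ∈ F) {c : B} (hc : c ∈ innSpan B (⊤ : Submodule ℂ E)) {y : E}
    (hy : y ∈ F) : rk B (act x c) y ∈ compSpan B F := by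
  let D : Submodule ℂ E :=
    { carrier := {y | rk B (act x c) y ∈ compSpan B F}
      add_mem' := fun {a b} ha hb => by
        show rk B (act x c) (a + b) ∈ compSpan B F
        rw [rk_add_right]; exact Submodule.add_mem _ ha hb
      zero_mem' := by
        show rk B (act x c) 0 ∈ compSpan B F
        have : rk B (act x c) 0 = 0 := by
          have h2 := rk_smul_right (B := B) (0 : ℂ) (act x c) (0 : E)
          simpa using h2
        rw [this]; exact Submodule.zero_mem _
      smul_mem' := fun d b hb => by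
        show rk B (act x c) (d • b) ∈ compSpan B F
        rw [rk_smul_right]; exact Submodule.smul_mem _ _ hb }
  have hD : IsClosed (D : Set E) := compSpan_closed.preimage (continuous_rk_right (act x c))
  have h1 : (Submodule.span ℂ (triples B F)).topologicalClosure ≤ D := by
    refine Submodule.topologicalClosure_minimal _ (Submodule.span_le.2 ?_) hD
    rintro w ⟨y', hy', g, hg, h, hh, rfl⟩
    show rk B (act x c) (act y' (inn g h : B)) ∈ compSpan B F
    have h2 : rk B (act x c) (act y' (inn g h : B)) = rk B (act x (c * inn h g)) y' := by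
      ext z
      rw [rk_apply, rk_apply, act_inn, star_inn, act_mul, act_mul]
    rw [h2]
    exact rk_mem (X1 hF hH hx hc (inn_mem hh hg)) hy'
  exact h1 (mem_closure_triples hF hy)

/-- `F E^* K(F) ⊆ K(F)` -/
lemma K2 {x : E} (hx : x ∈ F) (y : E) {k : Op E} (hk : k ∈ compSpan B F) :
    (rk B x y).comp k ∈ compSpan B F := by
  have := compSpan_ind (B := B) (F := F) (G := compSpan B F) compSpan_closed
    (ContinuousLinearMap.compL ℂ E E E (rk B x y)) (fun g hg h hh => by
      rw [ContinuousLinearMap.compL_apply]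
      have h1 : (rk B x y).comp (rk B g h) = rk B (act x (inn y g : B)) h := by
        ext z
        rw [ContinuousLinearMap.comp_apply, rk_apply, rk_apply, rk_apply, inn_act, act_mul]
      rw [h1]
      exact rk_mem (hH x hx y g hg) hh) k hk
  rwa [ContinuousLinearMap.compL_apply] at this

/-- `K(F) E F^* ⊆ K(F)` -/
lemma K3 {k : Op E} (hk : k ∈ compSpan B F) (u : E) {y : E} (hy : y ∈ F) :
    rk B (k u) y ∈ compSpan B F := by
  obtain ⟨f, hf⟩ := exists_rkL (B := B) y
  have := compSpan_ind (B := B) (F := F) (G := compSpan B F) compSpan_closed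
    (f.comp (ContinuousLinearMap.apply ℂ E u)) (fun g hg h hh => by
      rw [ContinuousLinearMap.comp_apply, ContinuousLinearMap.apply_apply, hf, rk_apply]
      have h1 : rk B (act g (inn h u : B)) y = rk B g (act y (inn u h : B)) := by
        ext z
        rw [rk_apply, rk_apply, act_inn, star_inn, act_mul]
      rw [h1]
      exact rk_mem hg (hH y hy u h hh)) k hk
  rwa [ContinuousLinearMap.comp_apply, ContinuousLinearMap.apply_apply, hf] at this

/-- `K(F) K(E) K(F) ⊆ K(F)` -/
lemma K4 {k : Op E} (hk : k ∈ compSpan B F) {l : Op E} (hl : l ∈ compSpan B (⊤ : Submodule ℂ E))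
    {m : Op E} (hm : m ∈ compSpan B F) : k.comp (l.comp m) ∈ compSpan B F := by
  have := compSpan_ind (B := B) (F := F) (G := compSpan B F) compSpan_closed
    ((ContinuousLinearMap.compL ℂ E E E k).comp (ContinuousLinearMap.compL ℂ E E E l))
    (fun g hg h hh => by
      rw [ContinuousLinearMap.comp_apply, ContinuousLinearMap.compL_apply,
        ContinuousLinearMap.compL_apply]
      have h1 : k.comp (l.comp (rk B g h)) = k.comp (rk B (l g) h) := by
        obtain ⟨f, hf⟩ := exists_rkL (B := B) h
        congr 1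
        -- `l` is `B`-linear
        have h2 : ∀ b : B, l (act g b) = act (l g) b := by
          intro b
          have h3 : l ∈ (compSpan B (⊤ : Submodule ℂ E)) := hl
          have h4 : ∀ l ∈ compSpan B (⊤ : Submodule ℂ E),
              ((ContinuousLinearMap.apply ℂ E (act g b)) -
                (actE E b).comp (ContinuousLinearMap.apply ℂ E g)) l ∈ (⊥ : Submodule ℂ E) := by
            refine compSpan_ind (B := B) (F := (⊤ : Submodule ℂ E)) (by simp) _ ?_
            intro u _ v _
            rw [Submodule.mem_bot, ContinuousLinearMap.sub_apply, ContinuousLinearMap.comp_apply,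
              ContinuousLinearMap.apply_apply, ContinuousLinearMap.apply_apply, actE_apply,
              rk_apply, rk_apply, inn_act, act_mul, sub_self]
          have h5 := h4 l hl
          rw [Submodule.mem_bot, ContinuousLinearMap.sub_apply, ContinuousLinearMap.comp_apply,
            ContinuousLinearMap.apply_apply, ContinuousLinearMap.apply_apply, actE_apply] at h5
          exact sub_eq_zero.1 h5
        ext z
        rw [ContinuousLinearMap.comp_apply, rk_apply, rk_apply, h2]
      have h6 : k.comp (rk B (l g) h) = rk B (k (l g)) h := by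
        have h2 : ∀ b : B, k (act (l g) b) = act (k (l g)) b := by
          intro b
          have h4 : ∀ k ∈ compSpan B F,
              ((ContinuousLinearMap.apply ℂ E (act (l g) b)) -
                (actE E b).comp (ContinuousLinearMap.apply ℂ E (l g))) k ∈ (⊥ : Submodule ℂ E) := by
            refine compSpan_ind (B := B) (F := F) (by simp) _ ?_
            intro u _ v _
            rw [Submodule.mem_bot, ContinuousLinearMap.sub_apply, ContinuousLinearMap.comp_apply,
              ContinuousLinearMap.apply_apply, ContinuousLinearMap.apply_apply, actE_apply,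
              rk_apply, rk_apply, inn_act, act_mul, sub_self]
          have h5 := h4 k hk
          rw [Submodule.mem_bot, ContinuousLinearMap.sub_apply, ContinuousLinearMap.comp_apply,
            ContinuousLinearMap.apply_apply, ContinuousLinearMap.apply_apply, actE_apply] at h5
          exact sub_eq_zero.1 h5
        ext z
        rw [ContinuousLinearMap.comp_apply, rk_apply, rk_apply, h2]
      rw [h1, h6]
      exact rk_mem (X4 hF hH hk hl hg) hh) m hm
  rwa [ContinuousLinearMap.comp_apply, ContinuousLinearMap.compL_apply,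
    ContinuousLinearMap.compL_apply] at this

end Facts

/-- operators in `compSpan` are `B`-linear -/
lemma map_act {G : Submodule ℂ E} {l : Op E} (hl : l ∈ compSpan B G) (g : E) (b : B) :
    l (act g b) = act (l g) b := by
  have h4 : ∀ l ∈ compSpan B G,
      ((ContinuousLinearMap.apply ℂ E (act g b)) -
        (actE E b).comp (ContinuousLinearMap.apply ℂ E g)) l ∈ (⊥ : Submodule ℂ E) := by
    refine compSpan_ind (B := B) (F := G) (by simp) _ ?_
    intro u _ v _
    rw [Submodule.mem_bot, ContinuousLinearMap.sub_apply, ContinuousLinearMap.comp_apply,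
      ContinuousLinearMap.apply_apply, ContinuousLinearMap.apply_apply, actE_apply,
      rk_apply, rk_apply, inn_act, act_mul, sub_self]
  have h5 := h4 l hl
  rw [Submodule.mem_bot, ContinuousLinearMap.sub_apply, ContinuousLinearMap.comp_apply,
    ContinuousLinearMap.apply_apply, ContinuousLinearMap.apply_apply, actE_apply] at h5
  exact sub_eq_zero.1 h5

end Proof

/-- **Ternary hereditary implies linking hereditary.** For every C*-algebra `B`, every Hilbert
`B`-module `E` and every closed ternary subspace `F` of `E`: if `F` is ternary hereditary in `E`,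
then `F` is linking hereditary in `E`. -/
theorem result : ∀ (B E : Type*) [NonUnitalCStarAlgebra B] [NormedAddCommGroup E]
    [NormedSpace ℂ E] [CompleteSpace E] [HilbMod B E] (F : Submodule ℂ E),
    IsTernary B F → IsTernaryHereditary B F → IsLinkingHereditary B F := by
  intro B E _ _ _ _ _ F hF hH
  rintro ⟨b1, x1, y1, k1⟩ ⟨hb1, hx1, hy1, hk1⟩ ⟨b2, x2, y2, k2⟩ ⟨hb2, -, -, hk2⟩
    ⟨b3, x3, y3, k3⟩ ⟨hb3, hx3, hy3, hk3⟩
  simp only at hb1 hx1 hy1 hk1 hb2 hk2 hb3 hx3 hy3 hk3
  obtain ⟨l2, hl2, hadj2⟩ := exists_adj hk2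
  obtain ⟨l3, hl3, hadj3⟩ := exists_adj hk3
  refine ⟨⟨b1 * (b2 * b3) + b1 * inn y2 x3 + inn y1 (act x2 b3) + inn y1 (k2 x3),
    act x1 (b2 * b3) + act x1 (inn y2 x3 : B) + k1 (act x2 b3) + k1 (k2 x3),
    act y3 (star b2 * star b1) + l3 (act y2 (star b1)) + act y3 (inn x2 y1 : B) + l3 (l2 y1),
    rk B (act x1 b2) y3 + (rk B x1 y2).comp k3 + rk B (k1 x2) y3 + k1.comp (k2.comp k3)⟩,
    ⟨?_, ?_, ?_, ?_⟩, ?_⟩
  · simp only
    refine Submodule.add_mem _ (Submodule.add_mem _ (Submodule.add_mem _ (B1 hF hH hb1 hb2 hb3)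
      (CE hF hH hb1 y2 hx3)) ?_) (B4 hF hH hy1 hk2 hx3)
    rw [inn_act]
    exact EC hF hH hb3 x2 hy1
  · simp only
    exact Submodule.add_mem _ (Submodule.add_mem _ (Submodule.add_mem _ (X1 hF hH hx1 hb2 hb3)
      (hH x1 hx1 y2 x3 hx3)) (X3 hF hH hk1 x2 hb3)) (X4 hF hH hk1 hk2 hx3)
  · simp only
    exact Submodule.add_mem _ (Submodule.add_mem _ (Submodule.add_mem _
      (X1 hF hH hy3 (star_mem_innSpan hb2) (star_mem_innSpan hb1))
      (X3 hF hH hl3 y2 (star_mem_innSpan hb1))) (hH y3 hy3 x2 y1 hy1)) (X4 hF hH hl3 hl2 hy1)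
  · simp only
    exact Submodule.add_mem _ (Submodule.add_mem _ (Submodule.add_mem _ (K1 hF hH hx1 hb2 hy3)
      (K2 hF hH hx1 y2 hk3)) (K3 hF hH hk1 x2 hy3)) (K4 hF hH hk1 hk2 hk3)
  · intro c _ z
    simp only [val, Mat.fst, Mat.snd, ap, Prod.mk.injEq]
    constructor
    · rw [inn_add_left, inn_add_left, inn_add_left, act_inn, hadj3, act_inn, act_inn, hadj3, hadj2,
        star_mul, star_star, star_star, star_inn]
      simp only [inn_add, inn_act, map_add, act_add, map_act hk2, mul_add, add_mul, act_mul,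
        mul_assoc]
      abel
    · simp only [ContinuousLinearMap.add_apply, ContinuousLinearMap.comp_apply, rk_apply, map_add,
        act_add, add_act, map_act hk1, map_act hk2, act_mul, inn_act, inn_add]
      abel

end Pool.Agent.Results.MP_7e9539_an.TernaryHereditary
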